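import Mathlib
import Pool.Agent.W581.HQ.Stm

/-!
The reflected function.
-/

set_option autoImplicit false

namespace Pool.Agent.W736.HQ

open Pool.Agent.W581.HQ Pool.Agent.W360.MQ

theorem R_dg (t : ℝ) : R t * dg 1 (-1) = dg 1 (-1) * R (-t) := by
  ext i j
  fin_cases i <;> fin_cases j <;> simp [dg, R]

theorem dg_dg (t : ℝ) : (dg 1 t : M2) * dg 1 (-1) = dg 1 (-t) := by
  ext i j
  fin_cases i <;> fin_cases j <;> simp [dg]

theorem dg_det : IsUnit (dg 1 (-1) : M2).det := by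
  rw [dg, Matrix.det_fin_two_of]
  norm_num

theorem main : S_MIR := by
  intro p W h
  refine ⟨⟨h.p1, ?_, ?_, ?_⟩, ?_⟩
  · intro s t A
    show W (R s * A * R t * dg 1 (-1)) = W (A * dg 1 (-1))
    have e : R s * A * R t * dg 1 (-1) = R s * (A * dg 1 (-1)) * R (-t) := by
      rw [mul_assoc (R s * A), R_dg, ← mul_assoc, mul_assoc (R s)]
    rw [e, h.inv]
  · intro r A hr
    show W (r • A * dg 1 (-1)) = r ^ p * W (A * dg 1 (-1))
    rw [Matrix.smul_mul, h.hom r _ hr]
  · intro F H hH t h0 h1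
    show W (((1 - t) • F + t • (F + H)) * dg 1 (-1)) ≤
      (1 - t) * W (F * dg 1 (-1)) + t * W ((F + H) * dg 1 (-1))
    have hr : (H * dg 1 (-1)).rank = 1 := by
      rw [Matrix.rank_mul_eq_left_of_isUnit_det _ _ dg_det, hH]
    have := h.roc (F * dg 1 (-1)) (H * dg 1 (-1)) hr t h0 h1
    rw [Matrix.add_mul, Matrix.smul_mul, Matrix.smul_mul, Matrix.add_mul]
    exact this
  · intro t
    show W (dg 1 t * dg 1 (-1)) = W (dg 1 (-t))
    rw [dg_dg]

end Pool.Agent.W736.HQ
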